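import Pool.Agent.WIR.StmtsB

/-! WIR, row GKM (mass with a discount on the first 9 positions). -/

namespace Pool.Agent.WIR.H75

open scoped BigOperators

theorem g_low (l : ℕ) (c Y : ℝ) : ∀ n : ℕ, n ≤ 9 →
    ∑ x ∈ Finset.Icc (l + 1) (l + n), (1 / 2 : ℝ) ^ (x - l) * (if x ≤ l + 9 then c else Y) =
      c * (1 - (1 / 2 : ℝ) ^ n) := by
  intro n
  induction n with
  | zero =>
    intro _
    simp
  | succ n ih =>
    intro hn
    have h1 := Finset.sum_Icc_succ_top (a := l + 1) (b := l + n) (by omega)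
      (fun x => (1 / 2 : ℝ) ^ (x - l) * (if x ≤ l + 9 then c else Y))
    have e1 : l + n + 1 - l = n + 1 := by omega
    have e2 : l + n + 1 ≤ l + 9 := by omega
    rw [show l + (n + 1) = l + n + 1 from rfl, h1, ih (by omega), e1, if_pos e2]
    ring

theorem g_high (l : ℕ) (c Y : ℝ) : ∀ n : ℕ,
    ∑ x ∈ Finset.Icc (l + 1) (l + (9 + n)), (1 / 2 : ℝ) ^ (x - l) * (if x ≤ l + 9 then c else Y) =
      c * (1 - (1 / 2 : ℝ) ^ 9) + Y * ((1 / 2 : ℝ) ^ 9 - (1 / 2 : ℝ) ^ (9 + n)) := by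
  intro n
  induction n with
  | zero =>
    have h1 := g_low l c Y 9 le_rfl
    rw [show l + (9 + 0) = l + 9 from rfl, h1]
    simp
  | succ n ih =>
    have h1 := Finset.sum_Icc_succ_top (a := l + 1) (b := l + (9 + n)) (by omega)
      (fun x => (1 / 2 : ℝ) ^ (x - l) * (if x ≤ l + 9 then c else Y))
    have e1 : l + (9 + n) + 1 - l = 9 + n + 1 := by omega
    have e2 : ¬ l + (9 + n) + 1 ≤ l + 9 := by omega
    rw [show l + (9 + (n + 1)) = l + (9 + n) + 1 from rfl, h1, ih, e1, if_neg e2,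
      show 9 + (n + 1) = 9 + n + 1 from rfl]
    ring

theorem k_low (l : ℕ) (c Y : ℝ) : ∀ n : ℕ, n + 1 ≤ 9 →
    ∑ x ∈ Finset.Icc (l + 2) (l + (n + 1)), ((x - l - 1 : ℕ) : ℝ) * (1 / 2 : ℝ) ^ (x - l) *
      (if x ≤ l + 9 then c else Y) = c * (1 - ((n : ℝ) + 2) * (1 / 2 : ℝ) ^ (n + 1)) := by
  intro n
  induction n with
  | zero =>
    intro _
    have : Finset.Icc (l + 2) (l + (0 + 1)) = ∅ := by
      rw [Finset.Icc_eq_empty]
      omega
    rw [this]
    simp
  | succ n ih =>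
    intro hn
    have h1 := Finset.sum_Icc_succ_top (a := l + 2) (b := l + (n + 1)) (by omega)
      (fun x => ((x - l - 1 : ℕ) : ℝ) * (1 / 2 : ℝ) ^ (x - l) * (if x ≤ l + 9 then c else Y))
    have e0 : l + (n + 1) + 1 - l - 1 = n + 1 := by omega
    have e1 : l + (n + 1) + 1 - l = n + 2 := by omega
    have e2 : l + (n + 1) + 1 ≤ l + 9 := by omega
    rw [show l + (n + 1 + 1) = l + (n + 1) + 1 from rfl, h1, ih (by omega), e0, e1, if_pos e2]
    push_cast
    ring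

theorem k_high (l : ℕ) (c Y : ℝ) : ∀ n : ℕ,
    ∑ x ∈ Finset.Icc (l + 2) (l + (9 + n)), ((x - l - 1 : ℕ) : ℝ) * (1 / 2 : ℝ) ^ (x - l) *
      (if x ≤ l + 9 then c else Y) =
      c * (1 - 10 / 512) + Y * (10 / 512 - ((n : ℝ) + 10) * (1 / 2 : ℝ) ^ (9 + n)) := by
  intro n
  induction n with
  | zero =>
    have h1 := k_low l c Y 8 le_rfl
    rw [show l + (9 + 0) = l + (8 + 1) from rfl, h1]
    norm_num
  | succ n ih =>
    have h1 := Finset.sum_Icc_succ_top (a := l + 2) (b := l + (9 + n)) (by omega)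
      (fun x => ((x - l - 1 : ℕ) : ℝ) * (1 / 2 : ℝ) ^ (x - l) * (if x ≤ l + 9 then c else Y))
    have e0 : l + (9 + n) + 1 - l - 1 = 9 + n := by omega
    have e1 : l + (9 + n) + 1 - l = 9 + n + 1 := by omega
    have e2 : ¬ l + (9 + n) + 1 ≤ l + 9 := by omega
    rw [show l + (9 + (n + 1)) = l + (9 + n) + 1 from rfl, h1, ih, e0, e1, if_neg e2,
      show 9 + (n + 1) = 9 + n + 1 from rfl]
    push_cast
    ring

theorem gkm : GkmStmt := by
  intro B l γ Y h0 h1 hY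
  have hpos : 0 ≤ (1 - 9 / 10 * γ) * Y := mul_nonneg (by linarith) hY
  have hγY : 0 ≤ γ * Y := mul_nonneg h0 hY
  have hcY : 0 ≤ (1 - γ) * Y := mul_nonneg (by linarith) hY
  have hcle : (1 - γ) * Y ≤ (1 - 9 / 10 * γ) * Y := by nlinarith
  constructor
  · unfold Gh
    by_cases hB : B ≤ l
    · have : Finset.Icc (l + 1) B = ∅ := by
        rw [Finset.Icc_eq_empty]
        omega
      rw [this]
      simpa using hpos
    · by_cases hB9 : B ≤ l + 9
      · obtain ⟨n, rfl⟩ := Nat.exists_eq_add_of_le (show l ≤ B by omega)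
        rw [g_low l ((1 - γ) * Y) Y n (by omega)]
        have h2 : (0 : ℝ) ≤ (1 / 2 : ℝ) ^ n := by positivity
        nlinarith
      · obtain ⟨n, rfl⟩ := Nat.exists_eq_add_of_le (show l + 9 ≤ B by omega)
        rw [show l + 9 + n = l + (9 + n) by ring, g_high l ((1 - γ) * Y) Y n]
        have h2 : (0 : ℝ) ≤ (1 / 2 : ℝ) ^ (9 + n) := by positivity
        have h3 : 0 ≤ Y * (1 / 2 : ℝ) ^ (9 + n) := mul_nonneg hY h2
        have h4 : (1 / 2 : ℝ) ^ 9 = 1 / 512 := by norm_num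
        rw [h4]
        nlinarith
  · unfold Kh
    by_cases hB : B ≤ l
    · have : Finset.Icc (l + 2) B = ∅ := by
        rw [Finset.Icc_eq_empty]
        omega
      rw [this]
      simpa using hpos
    · by_cases hB9 : B ≤ l + 9
      · obtain ⟨n, rfl⟩ := Nat.exists_eq_add_of_le (show l + 1 ≤ B by omega)
        rw [show l + 1 + n = l + (n + 1) by ring, k_low l ((1 - γ) * Y) Y n (by omega)]
        have h2 : (0 : ℝ) ≤ ((n : ℝ) + 2) * (1 / 2 : ℝ) ^ (n + 1) := by positivity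
        nlinarith
      · obtain ⟨n, rfl⟩ := Nat.exists_eq_add_of_le (show l + 9 ≤ B by omega)
        rw [show l + 9 + n = l + (9 + n) by ring, k_high l ((1 - γ) * Y) Y n]
        have h2 : (0 : ℝ) ≤ ((n : ℝ) + 10) * (1 / 2 : ℝ) ^ (9 + n) := by positivity
        have h3 : 0 ≤ Y * (((n : ℝ) + 10) * (1 / 2 : ℝ) ^ (9 + n)) := mul_nonneg hY h2
        nlinarith

end Pool.Agent.WIR.H75
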